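import Pool.Agent.Lib.MP_1a91b9_ntX.Base
import Pool.Agent.Lib.MP_1a91b9_ntT.S4.PsiDef

/-!
# The Hecke character of `y² = x³ + D` over `K = ℚ(√-3)`

`HDat D f ps`: the function `ps` on the ideals of `𝓞 K` is the Hecke character of the curve `y² = x³ + D`: `ps P` is the
generator of `P` which acts on the curve as the Frobenius at `P`; `f` is a multiple of the conductor with the same prime
divisors.
-/

set_option autoImplicit false

namespace Pool.Agent.Lib.MP_1a91b9_ntX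

open NumberField IsDedekindDomain Pool.Agent.Lib.MP_1a91b9_ntT

/-- the Hecke datum of the curve `y² = x³ + D` -/
structure HDat (D : ℤ) (f : 𝓞 K) (ps : Ideal (𝓞 K) → 𝓞 K) : Prop where
  ne : f ≠ 0
  three : (3 : 𝓞 K) ∣ f
  one : ps 1 = 1
  mul : ∀ I J : Ideal (𝓞 K), ps (I * J) = ps I * ps J
  span : ∀ I : Ideal (𝓞 K), IsCoprime I (Ideal.span {f}) → Ideal.span {ps I} = I
  zero : ∀ I : Ideal (𝓞 K), ¬ IsCoprime I (Ideal.span {f}) → ps I = 0
  ray : ∀ a : 𝓞 K, f ∣ a - 1 → ps (Ideal.span {a}) = a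
  /-- `ps P = u⁻¹ β` with `β` the generator congruent to `1` modulo `3` and `u = (4 D) ^ ((N P - 1) / 6)` modulo `P` -/
  sym : ∀ P : HeightOneSpectrum (𝓞 K), ((6 * D : ℤ) : 𝓞 K) ∉ P.asIdeal → ∃ u : (𝓞 K)ˣ,
    (u : 𝓞 K) - ((4 * D : ℤ) : 𝓞 K) ^ ((Ideal.absNorm P.asIdeal - 1) / 6) ∈ P.asIdeal ∧
    (3 : 𝓞 K) ∣ (u : 𝓞 K) * ps P.asIdeal - 1
  /-- the prime divisors of `f` divide `6 D` -/
  good : ∀ P : HeightOneSpectrum (𝓞 K), f ∈ P.asIdeal → ((6 * D : ℤ) : 𝓞 K) ∈ P.asIdeal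
  /-- the primes dividing `6 D` divide `f`, except `2` if the curve has good reduction at `2` -/
  bad : ∀ P : HeightOneSpectrum (𝓞 K), ((6 * D : ℤ) : 𝓞 K) ∈ P.asIdeal →
    ¬ ((2 : 𝓞 K) ∈ P.asIdeal ∧ ∃ m : ℤ, D = 16 * (4 * m + 1)) → f ∈ P.asIdeal
  /-- the value at `2` in the case of good reduction at `2` -/
  two : (∃ m : ℤ, D = 16 * (4 * m + 1)) → ps (Ideal.span {2}) = -2

/-- the Hecke datum attached to the curve -/
class HC [DD] where
  /-- the conductor -/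
  f : 𝓞 K
  /-- the character -/
  ps : Ideal (𝓞 K) → 𝓞 K
  hd : HDat DD.D f ps

/-- the character -/
abbrev ps [DD] [HC] (I : Ideal (𝓞 K)) : 𝓞 K := HC.ps I

/-- the Hecke character over `F` -/
noncomputable def psi [DD] [HC] (F : Type*) [Field F] [NumberField F] [Algebra K F]
    (I : Ideal (𝓞 F)) : 𝓞 K := ps (Ideal.relNorm (𝓞 K) I)

section
variable [DD] [HC]

/-- a prime not dividing `6 D` is prime to `f` -/
theorem ps_span (P : HeightOneSpectrum (𝓞 K)) (h : ((6 * DD.D : ℤ) : 𝓞 K) ∉ P.asIdeal) :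
    Ideal.span {ps P.asIdeal} = P.asIdeal := by
  refine HC.hd.span _ ?_
  rw [Ideal.isCoprime_iff_sup_eq]
  by_contra hc
  have h1 : P.asIdeal = P.asIdeal ⊔ Ideal.span {HC.f} :=
    P.isMaximal.eq_of_le hc le_sup_left
  refine h (HC.hd.good P ?_)
  rw [h1]
  exact Ideal.mem_sup_right (Ideal.mem_span_singleton_self _)

theorem ps_prime (P : HeightOneSpectrum (𝓞 K)) (h : ((6 * DD.D : ℤ) : 𝓞 K) ∉ P.asIdeal) :
    Prime (ps P.asIdeal) := by
  rw [← Ideal.span_singleton_prime, ps_span P h]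
  · exact P.isPrime
  · intro h0
    have h1 := ps_span P h
    rw [h0, Set.singleton_zero, Ideal.span_zero] at h1
    exact P.ne_bot h1.symm

theorem ps_pow (I : Ideal (𝓞 K)) (n : ℕ) : ps (I ^ n) = ps I ^ n := by
  induction n with
  | zero => rw [pow_zero, pow_zero]; exact HC.hd.one
  | succ n ih => rw [pow_succ, pow_succ, ← ih]; exact HC.hd.mul _ _

variable (F : Type*) [Field F] [NumberField F] [Algebra K F]

theorem psi_one : psi F 1 = 1 := by
  rw [psi, map_one]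
  exact HC.hd.one

theorem psi_mul (I J : Ideal (𝓞 F)) : psi F (I * J) = psi F I * psi F J := by
  rw [psi, map_mul]
  exact HC.hd.mul _ _

theorem psi_zero : psi F 0 = 0 := by
  rw [psi, map_zero]
  refine HC.hd.zero _ ?_
  intro h
  rw [Ideal.isCoprime_iff_sup_eq, Ideal.zero_eq_bot, bot_sup_eq, Ideal.span_singleton_eq_top] at h
  have h3 : IsUnit (3 : 𝓞 K) := isUnit_of_dvd_unit HC.hd.three h
  have h5 : Ideal.span {(3 : 𝓞 K)} = ⊤ := Ideal.span_singleton_eq_top.2 h3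
  have e3 := S4.u4_absNorm_p (K := K) 3
  rw [Nat.cast_ofNat, h5, Ideal.absNorm_top] at e3
  omega

/-- the character at a place in terms of the place below -/
theorem psi_pow (v : HeightOneSpectrum (𝓞 F)) :
    psi F v.asIdeal = ps (v.under (𝓞 K)).asIdeal ^ v.asIdeal.inertiaDeg (𝓞 K) := by
  have h0 : (v.under (𝓞 K)).asIdeal.IsMaximal := (v.under (𝓞 K)).isMaximal
  have h1 : v.asIdeal.LiesOver (v.under (𝓞 K)).asIdeal := ⟨rfl⟩
  have hrel : Ideal.relNorm (𝓞 K) v.asIdeal =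
      (v.under (𝓞 K)).asIdeal ^ v.asIdeal.inertiaDeg (𝓞 K) :=
    Ideal.relNorm_eq_pow_of_isMaximal v.asIdeal (v.under (𝓞 K)).asIdeal
  rw [psi, hrel, ps_pow]

end

end Pool.Agent.Lib.MP_1a91b9_ntX
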