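import Pool.Agent.Lib.MP_1a91b9_ntT.Base

/-!
# The elliptic curves `y² = x³ + D`: common definitions
-/

set_option autoImplicit false

namespace Pool.Agent.Lib.MP_1a91b9_ntX

open NumberField IsDedekindDomain Pool.Agent.Lib.MP_1a91b9_ntT

/-- the integer `D` of the curve `y² = x³ + D` -/
class DD where
  /-- the integer -/
  D : ℤ
  ne : D ≠ 0

/-- `D` as an element of `F` -/
abbrev dD (F : Type*) [Field F] [DD] : F := ((DD.D : ℤ) : F)

/-- the product of the bad primes: `6 D` as an element of `F` -/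
abbrev bD (F : Type*) [Field F] [DD] : F := ((6 * DD.D : ℤ) : F)

/-- The elliptic curve `y² = x³ + D`. -/
def E (F : Type*) [Field F] [DD] : WeierstrassCurve F := ⟨0, 0, 0, 0, dD F⟩

end Pool.Agent.Lib.MP_1a91b9_ntX
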